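import Mathlib
import Pool.Agent.Lib.MP_0b1044_mp.Final

/-!
For every `N ≥ 1`, every lattice and every `β`, the elliptic Calogero-Moser operator `H_N`,
conjugated by `D_N^β` and written in the variables `u`, is a linear combination of the
anti-commutators `{E_ij, E_kl}`, where `E_00 = -∑ u_j ∂_{u_j} - β (N + 1)`.

The first part of the statement says that the points where everything is defined are dense.
-/

namespace Pool.Agent.Results.MP_0b1044_mp.AntiCommutator

open PeriodPair Pool.Agent.Lib.MP_0b1044_mp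

theorem result (L : PeriodPair) (N : ℕ) (hN : 1 ≤ N) (β : ℂ) :
    Dense {y : Fin N → ℂ | Generic L y ∧ ∃ G : (Fin N → ℂ) → ℂ, LogJac L G y} ∧
    ∃ c : Fin (N + 1) → Fin (N + 1) → Fin (N + 1) → Fin (N + 1) → ℂ,
      ∀ y : Fin N → ℂ, Generic L y →
      ∀ G : (Fin N → ℂ) → ℂ, LogJac L G y →
      ∀ f : (Fin N → ℂ) → ℂ, AnalyticAt ℂ f (uvar L y) →
        gauged L β G (fun x => f (uvar L x)) y
          = ∑ i, ∑ j, ∑ k, ∑ l, c i j k l *
              anti (Eop (-β * (N + 1)) i j) (Eop (-β * (N + 1)) k l) f (uvar L y) :=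
  main L N hN β

end Pool.Agent.Results.MP_0b1044_mp.AntiCommutator
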